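import Pool.Agent.H69.BD.Vidx

/-!
# Module Bad (MP_187c26_nt, RadicalLehmer without the tame condition): primes dividing the index

`x ^ m = b`, `[ℚ(x) : ℚ] = m`, `q` a prime not dividing `b`, `q ∣ idxZ x`. Then `q ∣ m` and `q ^ (m / q) ∣ idxZ x`.

PROOF. By `exists_mul_mem` (H11/FR/Glob) `q ∣ m` and `q ^ 2 ∣ b ^ q - b`. Put `k = m / q`, `z = x ^ k`, `G = ∑_(j < q) z ^ j b ^ (q - 1 - j)`, `η = G / q`.
`G z = b G - (b ^ q - b)`, so `G G = q b ^ (q - 1) G - (b ^ q - b) H`, `H ∈ ℤ[x]`: `η` is integral. A sum `∑_(i < k) c_i η x ^ i`, `c_i ∈ ℤ`, lies in `ℤ[x]` if and only if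
`q ∣ c_i` for all `i`: `(∑ c_i X ^ i) (∑_j X ^ (k j) b ^ (q - 1 - j)) = q A` in `ℤ[X]` and the second factor is monic. So the index of `ℤ[x]` in `ℤ[x] + ∑ ℤ η x ^ i` is `q ^ k`.
-/

set_option autoImplicit false

open IntermediateField NumberField Polynomial

namespace Pool.Agent.H11.V6

open Pool.Agent.H69.BD (idxZ)

section

variable {Ω : Type} [Field Ω] [CharZero Ω]

omit [CharZero Ω] in
theorem cauchy_idx (S O : AddSubgroup Ω) (q : ℕ) (hq : q.Prime) (h0 : S.relIndex O ≠ 0)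
    (h : q ∣ S.relIndex O) : ∃ y ∈ O, y ∉ S ∧ (q : Ω) * y ∈ S := by
  have : Fact q.Prime := ⟨hq⟩
  have h1 : Nat.card (O ⧸ S.addSubgroupOf O) = S.relIndex O := rfl
  have : Finite (O ⧸ S.addSubgroupOf O) := Nat.finite_of_card_ne_zero (by rw [h1]; exact h0)
  obtain ⟨a, ha⟩ := exists_prime_addOrderOf_dvd_card' (G := O ⧸ S.addSubgroupOf O) q (by rw [h1]; exact h)
  obtain ⟨y, rfl⟩ := QuotientAddGroup.mk_surjective a
  refine ⟨y, y.2, ?_, ?_⟩
  · intro hy
    have h2 : (QuotientAddGroup.mk y : O ⧸ S.addSubgroupOf O) = 0 := by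
      rw [QuotientAddGroup.eq_zero_iff]
      exact hy
    rw [h2, addOrderOf_zero] at ha
    exact hq.one_lt.ne ha
  · have h3 := addOrderOf_nsmul_eq_zero (QuotientAddGroup.mk y : O ⧸ S.addSubgroupOf O)
    rw [ha] at h3
    have h4 : (QuotientAddGroup.mk (q • y) : O ⧸ S.addSubgroupOf O) = 0 := h3
    rw [QuotientAddGroup.eq_zero_iff] at h4
    have h5 : ((q • y : O) : Ω) ∈ S := h4
    rw [AddSubgroup.coe_nsmul, nsmul_eq_mul] at h5
    exact h5

theorem adj_eq (x : Ω) :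
    (Algebra.adjoin ℤ ({x} : Set Ω)).toSubring = Pool.Agent.H11.FR.ordOf ℚ x := by
  apply le_antisymm
  · intro y hy
    have hy' : y ∈ Algebra.adjoin ℤ ({x} : Set Ω) := hy
    induction hy' using Algebra.adjoin_induction with
    | mem w hw =>
      rw [Set.mem_singleton_iff] at hw
      rw [hw]
      exact Pool.Agent.H11.FR.self_mem_ordOf x
    | algebraMap s =>
      rw [eq_intCast]
      exact intCast_mem _ s
    | add u v _ _ h2 h3 => exact Subring.add_mem _ (h2 ‹_›) (h3 ‹_›)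
    | mul u v _ _ h2 h3 => exact Subring.mul_mem _ (h2 ‹_›) (h3 ‹_›)
  · refine Pool.Agent.H11.FR.ordOf_le x _ (fun z => ?_) (Algebra.self_mem_adjoin_singleton ℤ x)
    obtain ⟨n, rfl⟩ := Rat.ringOfIntegersEquiv.symm.surjective z
    rw [eq_intCast, map_intCast]
    exact intCast_mem _ n

end

theorem mem_span_iff (a n : ℤ) :
    (a : 𝓞 ℚ) ∈ Ideal.span {(n : 𝓞 ℚ)} ↔ n ∣ a := by
  rw [Ideal.mem_span_singleton]
  constructor
  · rintro ⟨c, hc⟩
    refine ⟨Rat.ringOfIntegersEquiv c, ?_⟩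
    have h1 := congrArg Rat.ringOfIntegersEquiv hc
    rw [map_mul, map_intCast, map_intCast] at h1
    exact_mod_cast h1
  · rintro ⟨c, rfl⟩
    exact ⟨(c : 𝓞 ℚ), by push_cast; rfl⟩

theorem span_max (q : ℕ) (hq : q.Prime) : (Ideal.span {(q : 𝓞 ℚ)}).IsMaximal := by
  have h1 : (Ideal.span {(q : ℤ)}).IsMaximal := by
    refine PrincipalIdealRing.isMaximal_of_irreducible ?_
    exact (Nat.prime_iff_prime_int.1 hq).irreducible
  have h2 := Ideal.map_isMaximal_of_equiv (Rat.ringOfIntegersEquiv.symm) (p := Ideal.span {(q : ℤ)})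
  rw [Ideal.map_span, Set.image_singleton] at h2
  have h3 : Rat.ringOfIntegersEquiv.symm (q : ℤ) = (q : 𝓞 ℚ) := by
    rw [map_natCast]
  rwa [h3] at h2

/-- A prime `q ∤ b` which divides the index divides `m`, and `q ^ 2 ∣ b ^ q - b`. -/
theorem bad_cond {Ω : Type} [Field Ω] [CharZero Ω] [Algebra.IsAlgebraic ℚ Ω] (b m q : ℕ) (hb : 1 ≤ b)
    (hm : 1 ≤ m) (hq : q.Prime) (hqb : ¬ q ∣ b) (x : Ω) (hx : x ^ m = (b : Ω)) (h : q ∣ idxZ x) :
    q ∣ m ∧ (q : ℤ) ^ 2 ∣ (b : ℤ) ^ q - b := by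
  have hne : idxZ x ≠ 0 := by
    rw [Pool.Agent.H69.BD.idxZ_eq_ordIdx]
    refine Pool.Agent.H11.FR.ordIdx_ne_zero (K := ℚ) (b := ((b : ℕ) : 𝓞 ℚ)) hm ?_ ?_
    · have : b ≠ 0 := by omega
      exact_mod_cast this
    · rw [hx, map_natCast]
  obtain ⟨y, hyO, hyS, hqy⟩ := cauchy_idx _ _ q hq hne h
  obtain ⟨hy1, hy2⟩ : y ∈ ℚ⟮x⟯ ∧ IsIntegral ℤ y := hyO
  have hP := span_max q hq
  have hk1 : ∀ a : ℤ, (a : 𝓞 ℚ) ∈ Ideal.span {(q : 𝓞 ℚ)} ↔ (q : ℤ) ∣ a := by
    intro a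
    have := mem_span_iff a q
    simpa using this
  have hk2 : ∀ a : ℤ, (a : 𝓞 ℚ) ∈ Ideal.span {(q : 𝓞 ℚ)} ^ 2 ↔ (q : ℤ) ^ 2 ∣ a := by
    intro a
    rw [Ideal.span_singleton_pow]
    have := mem_span_iff a ((q : ℤ) ^ 2)
    simpa using this
  have hqb' : ¬ (q : ℤ) ∣ (b : ℤ) := by
    intro h1
    exact hqb (by exact_mod_cast h1)
  by_contra hcon
  have hgood : Pool.Agent.H11.FR.GoodAt ((b : ℕ) : 𝓞 ℚ) m (Ideal.span {(q : 𝓞 ℚ)}) := by
    constructor
    · intro h4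
      have h5 : ((b : ℤ) : 𝓞 ℚ) ∈ Ideal.span {(q : 𝓞 ℚ)} ^ 2 := by
        rw [Int.cast_natCast]
        exact h4
      rw [hk2] at h5
      exact hqb' (dvd_trans (dvd_pow_self _ two_ne_zero) h5)
    · intro hbP p hp hpm hpP c hc
      have h5 : ((p : ℤ) : 𝓞 ℚ) ∈ Ideal.span {(q : 𝓞 ℚ)} := by
        rw [Int.cast_natCast]
        exact hpP
      rw [hk1] at h5
      have h6 : q = p := (Nat.prime_dvd_prime_iff_eq hq hp).1 (by exact_mod_cast h5)
      subst h6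
      obtain ⟨n, rfl⟩ := Rat.ringOfIntegersEquiv.symm.surjective c
      rw [eq_intCast] at hc
      have h7 : (((b : ℤ) - n ^ q : ℤ) : 𝓞 ℚ) ∈ Ideal.span {(q : 𝓞 ℚ)} ^ 2 := by
        push_cast
        exact hc
      rw [hk2] at h7
      apply hcon
      refine ⟨hpm, ?_⟩
      have : Fact q.Prime := ⟨hq⟩
      -- `n ≡ b` modulo `q`
      have h8 : (q : ℤ) ∣ (b : ℤ) - n := by
        have h9 : (q : ℤ) ∣ (b : ℤ) - n ^ q := dvd_trans (dvd_pow_self _ two_ne_zero) h7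
        rw [← ZMod.intCast_zmod_eq_zero_iff_dvd] at h9 ⊢
        push_cast at h9 ⊢
        rwa [ZMod.pow_card] at h9
      have h10 : (q : ℤ) ^ 2 ∣ (b : ℤ) ^ q - n ^ q := by
        have h11 := dvd_sub_pow_of_dvd_sub h8 1
        simpa [pow_two] using h11
      have h12 : (b : ℤ) ^ q - b = ((b : ℤ) ^ q - n ^ q) - ((b : ℤ) - n ^ q) := by ring
      rw [h12]
      exact dvd_sub h10 h7
  obtain ⟨r, hr, hry⟩ := Pool.Agent.H11.FR.exists_mul_mem (K := ℚ) _ hP ((b : ℕ) : 𝓞 ℚ) m hm hgood x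
    (by rw [hx, map_natCast]) y hy1 hy2
  obtain ⟨n, rfl⟩ := Rat.ringOfIntegersEquiv.symm.surjective r
  rw [eq_intCast] at hr hry
  have hr' : ¬ (q : ℤ) ∣ n := fun h1 => hr ((hk1 n).2 h1)
  have h13 : (n : Ω) * y ∈ (Algebra.adjoin ℤ ({x} : Set Ω)).toSubring := by
    rw [adj_eq]
    have h14 : algebraMap (𝓞 ℚ) Ω (n : 𝓞 ℚ) = (n : Ω) := map_intCast _ _
    rw [← h14]
    exact hry
  have h15 : IsCoprime (q : ℤ) n :=
    (Nat.prime_iff_prime_int.1 hq).irreducible.coprime_iff_not_dvd.2 hr'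
  obtain ⟨u, v, huv⟩ := h15
  apply hyS
  have h16 : y = (u : Ω) * ((q : Ω) * y) + (v : Ω) * ((n : Ω) * y) := by
    have h17 : ((u * q + v * n : ℤ) : Ω) = 1 := by rw [huv, Int.cast_one]
    push_cast at h17
    linear_combination (-y) * h17
  rw [h16]
  exact Subring.add_mem _ (Subring.mul_mem _ (intCast_mem _ u) hqy)
    (Subring.mul_mem _ (intCast_mem _ v) h13)

section

variable {Ω : Type} [Field Ω] [CharZero Ω]

omit [CharZero Ω] in
theorem quad_int (t u v : Ω) (hu : IsIntegral ℤ u) (hv : IsIntegral ℤ v) (h : t ^ 2 = u * t + v) :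
    IsIntegral ℤ t := by
  have h1 : IsIntegral (integralClosure ℤ Ω) t := by
    refine ⟨X ^ (1 + 1) - (C (⟨u, hu⟩ : integralClosure ℤ Ω) * X + C (⟨v, hv⟩ : integralClosure ℤ Ω)),
      monic_X_pow_sub (degree_linear_lt.trans_le (by norm_num)), ?_⟩
    have h2 : algebraMap (integralClosure ℤ Ω) Ω ⟨u, hu⟩ = u := rfl
    have h3 : algebraMap (integralClosure ℤ Ω) Ω ⟨v, hv⟩ = v := rfl
    simp only [eval₂_sub, eval₂_add, eval₂_mul, eval₂_pow, eval₂_X, eval₂_C, h2, h3]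
    rw [one_add_one_eq_two, h, sub_self]
  have : Algebra.IsIntegral ℤ (integralClosure ℤ Ω) := inferInstance
  exact isIntegral_trans t h1

theorem eta_int (b q : ℕ) (hq : q.Prime) (hqq : (q : ℤ) ^ 2 ∣ (b : ℤ) ^ q - b) (z : Ω)
    (hz : z ^ q = (b : Ω)) (hzi : IsIntegral ℤ z) :
    IsIntegral ℤ ((∑ j ∈ Finset.range q, z ^ j * (b : Ω) ^ (q - 1 - j)) / (q : Ω)) := by
  obtain ⟨G, hG⟩ : ∃ G : Ω, G = ∑ j ∈ Finset.range q, z ^ j * (b : Ω) ^ (q - 1 - j) := ⟨_, rfl⟩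
  obtain ⟨c, hc⟩ := hqq
  have hq0 : (q : Ω) ≠ 0 := by exact_mod_cast hq.ne_zero
  have hbi : IsIntegral ℤ (b : Ω) := by
    have h1 : (b : Ω) = algebraMap ℤ Ω (b : ℤ) := by simp
    rw [h1]
    exact isIntegral_algebraMap
  have hci : IsIntegral ℤ (c : Ω) := isIntegral_algebraMap
  have hcast : (b : Ω) ^ q - b = (q : Ω) ^ 2 * c := by exact_mod_cast congrArg (Int.cast : ℤ → Ω) hc
  have h1 : G * (z - b) = z ^ q - (b : Ω) ^ q := by rw [hG]; exact geom_sum₂_mul z (b : Ω) q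
  have h2 : G * z = b * G - (q : Ω) ^ 2 * c := by
    rw [hz] at h1
    linear_combination h1 + (-1 : Ω) * hcast
  have h3 : ∀ j : ℕ, ∃ H : Ω, IsIntegral ℤ H ∧ G * z ^ j = (b : Ω) ^ j * G - (q : Ω) ^ 2 * c * H := by
    intro j
    induction j with
    | zero => exact ⟨0, isIntegral_zero, by simp⟩
    | succ j ih =>
      obtain ⟨H, hH, h4⟩ := ih
      refine ⟨(b : Ω) ^ j + H * z, (hbi.pow j).add (hH.mul hzi), ?_⟩
      rw [pow_succ]
      linear_combination z * h4 + (b : Ω) ^ j * h2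
  choose H hH hGz using h3
  have h5 : G * G = (q : Ω) * (b : Ω) ^ (q - 1) * G -
      (q : Ω) ^ 2 * c * ∑ j ∈ Finset.range q, H j * (b : Ω) ^ (q - 1 - j) := by
    have h6 : G * G = ∑ j ∈ Finset.range q, G * z ^ j * (b : Ω) ^ (q - 1 - j) := by
      have h60 : G * G = G * ∑ j ∈ Finset.range q, z ^ j * (b : Ω) ^ (q - 1 - j) := congrArg (G * ·) hG
      rw [h60, Finset.mul_sum]
      exact Finset.sum_congr rfl fun j _ => by ring
    rw [h6]
    have h7 : ∀ j ∈ Finset.range q, G * z ^ j * (b : Ω) ^ (q - 1 - j) =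
        (b : Ω) ^ (q - 1) * G - (q : Ω) ^ 2 * c * (H j * (b : Ω) ^ (q - 1 - j)) := by
      intro j hj
      rw [Finset.mem_range] at hj
      have h8 : (b : Ω) ^ (q - 1) = (b : Ω) ^ j * (b : Ω) ^ (q - 1 - j) := by
        rw [← pow_add]
        congr 1
        omega
      rw [hGz j, h8]
      ring
    rw [Finset.sum_congr rfl h7, Finset.sum_sub_distrib, Finset.sum_const, Finset.card_range,
      nsmul_eq_mul, ← Finset.mul_sum, ← mul_assoc]
  rw [← hG]
  refine quad_int (G / q) ((b : Ω) ^ (q - 1))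
    (-(c * ∑ j ∈ Finset.range q, H j * (b : Ω) ^ (q - 1 - j))) (hbi.pow _) ?_ ?_
  · refine (hci.mul (IsIntegral.sum _ fun j _ => (hH j).mul (hbi.pow _))).neg
  · rw [div_pow, pow_two G, h5]
    field_simp
    ring

/-- The sums which lie in `ℤ[x]`. -/
theorem key_dvd (b m k q : ℕ) (hkq : m = k * q) (hk : 0 < k) (hq : q.Prime) (x : Ω)
    (hx : x ^ m = (b : Ω)) (hdeg : Module.finrank ℚ ℚ⟮x⟯ = m) (c : Fin k → ℤ)
    (h : ∑ i, (c i : Ω) * ((∑ j ∈ Finset.range q, (x ^ k) ^ j * (b : Ω) ^ (q - 1 - j)) / (q : Ω) *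
      x ^ (i : ℕ)) ∈ Algebra.adjoin ℤ ({x} : Set Ω)) : ∀ i, (q : ℤ) ∣ c i := by
  have hm : 1 ≤ m := by
    rw [hkq]
    exact Nat.mul_pos hk hq.pos
  have hq0 : (q : Ω) ≠ 0 := by exact_mod_cast hq.ne_zero
  rw [Algebra.adjoin_singleton_eq_range_aeval] at h
  obtain ⟨p, hp⟩ := h
  have hM : (X ^ m - C (b : ℤ) : ℤ[X]).Monic := monic_X_pow_sub_C _ (by omega)
  obtain ⟨A, hA⟩ : ∃ A : ℤ[X], A = p %ₘ (X ^ m - C (b : ℤ)) := ⟨_, rfl⟩
  have hAx : aeval x A = aeval x p := by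
    have h1 := congrArg (aeval x) (modByMonic_add_div p (X ^ m - C (b : ℤ)))
    rw [map_add, map_mul, map_sub, map_pow, aeval_X, aeval_C, hx, ← hA] at h1
    have h2 : (algebraMap ℤ Ω) (b : ℤ) = (b : Ω) := by simp
    rw [h2, sub_self, zero_mul, add_zero] at h1
    exact h1
  have hAd : A.degree < m := by
    have h1 := degree_modByMonic_lt p hM
    rw [← hA, degree_X_pow_sub_C (by omega : 0 < m)] at h1
    exact h1
  obtain ⟨P, hP⟩ : ∃ P : ℤ[X], P = ∑ i : Fin k, C (c i) * X ^ (i : ℕ) := ⟨_, rfl⟩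
  obtain ⟨G, hG⟩ : ∃ G : ℤ[X], G = ∑ j ∈ Finset.range q, (X ^ k : ℤ[X]) ^ j * (C (b : ℤ)) ^ (q - 1 - j) := ⟨_, rfl⟩
  have hGm : G * (X ^ k - C (b : ℤ)) = X ^ (k * q) - C ((b : ℤ) ^ q) := by
    rw [hG, geom_sum₂_mul, ← pow_mul, C_pow]
  have hk1 : (X ^ k - C (b : ℤ) : ℤ[X]).Monic := monic_X_pow_sub_C _ (by omega)
  have hGmon : G.Monic := by
    refine Monic.of_mul_monic_right hk1 ?_
    rw [hGm]
    exact monic_X_pow_sub_C _ (by
      have := Nat.mul_pos hk hq.pos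
      omega)
  have hGd : G.natDegree + k = m := by
    have h1 := hGmon.natDegree_mul hk1
    rw [hGm, natDegree_X_pow_sub_C, natDegree_X_pow_sub_C] at h1
    rw [hkq, h1]
  have hPd : P.degree < k := by
    rw [hP]
    exact degree_sum_fin_lt c
  have hPx : aeval x P = ∑ i, (c i : Ω) * x ^ (i : ℕ) := by
    rw [hP, map_sum]
    refine Finset.sum_congr rfl fun i _ => ?_
    rw [map_mul, map_pow, aeval_X, aeval_C]
    simp
  have hGx : aeval x G = ∑ j ∈ Finset.range q, (x ^ k) ^ j * (b : Ω) ^ (q - 1 - j) := by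
    rw [hG, map_sum]
    refine Finset.sum_congr rfl fun j _ => ?_
    rw [map_mul, map_pow, map_pow, map_pow, aeval_X, aeval_C]
    simp
  have hD : P * G = C (q : ℤ) * A := by
    by_contra hne
    have hne' : (P * G - C (q : ℤ) * A).map (Int.castRingHom ℚ) ≠ 0 := by
      intro h1
      rw [Polynomial.map_eq_zero_iff (RingHom.injective_int (Int.castRingHom ℚ))] at h1
      exact hne (sub_eq_zero.1 h1)
    have h2 : aeval x ((P * G - C (q : ℤ) * A).map (Int.castRingHom ℚ)) = 0 := by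
      have h3 : aeval x ((P * G - C (q : ℤ) * A).map (algebraMap ℤ ℚ)) =
          aeval x (P * G - C (q : ℤ) * A) := aeval_map_algebraMap ℚ x _
      have h4 : aeval x (P * G - C (q : ℤ) * A) = 0 := by
        rw [map_sub, map_mul, map_mul, aeval_C, hAx, hPx, hGx]
        have h5 : aeval x p = ∑ i, (c i : Ω) * ((∑ j ∈ Finset.range q, (x ^ k) ^ j * (b : Ω) ^ (q - 1 - j)) / (q : Ω) *
            x ^ (i : ℕ)) := hp
        rw [h5, Finset.sum_mul, Finset.mul_sum, sub_eq_zero]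
        refine Finset.sum_congr rfl fun i _ => ?_
        have h6 : (algebraMap ℤ Ω) (q : ℤ) = (q : Ω) := by simp
        rw [h6]
        field_simp
      exact h3.trans h4
    have h7 := minpoly.degree_le_of_ne_zero ℚ x hne' h2
    have h8 : ((minpoly ℚ x).degree) = m := by
      have hi : IsIntegral ℚ x := Pool.Agent.H69.BD.integral_rad b m hm x hx
      rw [degree_eq_natDegree (minpoly.ne_zero hi), ← adjoin.finrank hi, hdeg]
    have h9 : ((P * G - C (q : ℤ) * A).map (Int.castRingHom ℚ)).degree < m := by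
      refine (degree_map_le).trans_lt ?_
      refine (degree_sub_le _ _).trans_lt (max_lt ?_ ?_)
      · rw [hGmon.degree_mul, degree_eq_natDegree hGmon.ne_zero, ← hGd, add_comm G.natDegree k]
        push_cast
        exact WithBot.add_lt_add_right (by simp) hPd
      · rw [degree_C_mul (by exact_mod_cast hq.ne_zero)]
        exact hAd
    rw [h8] at h7
    exact absurd h9 (not_lt.2 h7)
  have : Fact q.Prime := ⟨hq⟩
  have hZ := congrArg (Polynomial.map (Int.castRingHom (ZMod q))) hD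
  rw [Polynomial.map_mul, Polynomial.map_mul, Polynomial.map_C] at hZ
  have hq1 : (Int.castRingHom (ZMod q)) (q : ℤ) = 0 := by simp
  rw [hq1, C_0, zero_mul, mul_comm, (hGmon.map _).mul_right_eq_zero_iff] at hZ
  intro i
  have h10 : (P.map (Int.castRingHom (ZMod q))).coeff (i : ℕ) = 0 := by rw [hZ, coeff_zero]
  rw [coeff_map] at h10
  have h11 : P.coeff (i : ℕ) = c i := by
    rw [hP, finsetSum_coeff, Finset.sum_eq_single i]
    · rw [coeff_C_mul, coeff_X_pow_self, mul_one]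
    · intro j _ hj
      rw [coeff_C_mul, coeff_X_pow, if_neg, mul_zero]
      intro h
      exact hj (Fin.ext h.symm)
    · intro h
      exact absurd (Finset.mem_univ i) h
  rw [h11] at h10
  exact (ZMod.intCast_zmod_eq_zero_iff_dvd _ _).1 h10

end

/-- LEMMA BI. -/
theorem bad_idx {Ω : Type} [Field Ω] [CharZero Ω] [Algebra.IsAlgebraic ℚ Ω] (b m q : ℕ) (hb : 1 ≤ b)
    (hm : 1 ≤ m) (hq : q.Prime) (hqb : ¬ q ∣ b) (x : Ω) (hx : x ^ m = (b : Ω))
    (hdeg : Module.finrank ℚ ℚ⟮x⟯ = m) (h : q ∣ idxZ x) : q ∣ m ∧ q ^ (m / q) ∣ idxZ x := by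
  obtain ⟨hqm, hqq⟩ := bad_cond b m q hb hm hq hqb x hx h
  refine ⟨hqm, ?_⟩
  obtain ⟨k, hk⟩ : ∃ k, m = k * q := by
    obtain ⟨k, hk⟩ := hqm
    exact ⟨k, by rw [hk, mul_comm]⟩
  have hk0 : 0 < k := by
    rcases Nat.eq_zero_or_pos k with h1 | h1
    · rw [h1, zero_mul] at hk
      omega
    · exact h1
  have hmq : m / q = k := by rw [hk, Nat.mul_div_cancel _ hq.pos]
  rw [hmq]
  have hq0 : (q : Ω) ≠ 0 := by exact_mod_cast hq.ne_zero
  have hxi : IsIntegral ℤ x := by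
    refine IsIntegral.of_pow (by omega : 0 < m) ?_
    rw [hx]
    have h1 : (b : Ω) = algebraMap ℤ Ω (b : ℤ) := by simp
    rw [h1]
    exact isIntegral_algebraMap
  obtain ⟨G, hG⟩ : ∃ G : Ω, G = ∑ j ∈ Finset.range q, (x ^ k) ^ j * (b : Ω) ^ (q - 1 - j) := ⟨_, rfl⟩
  have heta := eta_int b q hq hqq (x ^ k) (by rw [← pow_mul, ← hk, hx]) (hxi.pow k)
  rw [← hG] at heta
  have hGS : G ∈ Algebra.adjoin ℤ ({x} : Set Ω) := by
    rw [hG]
    refine Subalgebra.sum_mem _ fun j _ => Subalgebra.mul_mem _ (Subalgebra.pow_mem _ (Subalgebra.pow_mem _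
      (Algebra.self_mem_adjoin_singleton ℤ x) _) _) (Subalgebra.pow_mem _ ?_ _)
    exact natCast_mem _ b
  have hxF : x ∈ ℚ⟮x⟯ := mem_adjoin_simple_self ℚ x
  have hSF : ∀ y ∈ Algebra.adjoin ℤ ({x} : Set Ω), y ∈ ℚ⟮x⟯ ∧ IsIntegral ℤ y := by
    intro y hy
    induction hy using Algebra.adjoin_induction with
    | mem w hw =>
      rw [Set.mem_singleton_iff] at hw
      rw [hw]
      exact ⟨hxF, hxi⟩
    | algebraMap s =>
      rw [eq_intCast]
      exact ⟨intCast_mem _ s, isIntegral_algebraMap⟩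
    | add u v _ _ h2 h3 => exact ⟨add_mem h2.1 h3.1, h2.2.add h3.2⟩
    | mul u v _ _ h2 h3 => exact ⟨mul_mem h2.1 h3.1, h2.2.mul h3.2⟩
  obtain ⟨S, hS⟩ : ∃ S : AddSubgroup Ω, S =
    (Algebra.adjoin ℤ ({x} : Set Ω)).toSubring.toAddSubgroup := ⟨_, rfl⟩
  obtain ⟨O, hO⟩ : ∃ O : AddSubgroup Ω, O =
    (ℚ⟮x⟯.toSubalgebra.toSubring ⊓ (integralClosure ℤ Ω).toSubring).toAddSubgroup := ⟨_, rfl⟩
  have hidx : idxZ x = S.relIndex O := by
    rw [hS, hO]
    rfl
  have hmemS : ∀ y, y ∈ S ↔ y ∈ Algebra.adjoin ℤ ({x} : Set Ω) := by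
    intro y
    rw [hS]
    rfl
  have hmemO : ∀ y, y ∈ O ↔ y ∈ ℚ⟮x⟯ ∧ IsIntegral ℤ y := by
    intro y
    rw [hO]
    rfl
  have hSO : S ≤ O := by
    intro y hy
    rw [hmemO]
    exact hSF y ((hmemS y).1 hy)
  let φ : (Fin k → ℤ) →+ Ω :=
    { toFun := fun c => ∑ i, (c i : Ω) * (G / (q : Ω) * x ^ (i : ℕ))
      map_zero' := by simp
      map_add' := fun v w => by
        rw [← Finset.sum_add_distrib]
        refine Finset.sum_congr rfl fun t _ => ?_
        rw [Pi.add_apply]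
        push_cast
        ring }
  have hφ : ∀ c, φ c = ∑ i, (c i : Ω) * (G / (q : Ω) * x ^ (i : ℕ)) := fun c => rfl
  have hφO : φ.range ≤ O := by
    rintro _ ⟨c, rfl⟩
    rw [hmemO, hφ]
    constructor
    · refine sum_mem fun i _ => mul_mem (intCast_mem _ _) (mul_mem (div_mem ?_ (_root_.natCast_mem _ q)) (pow_mem hxF _))
      exact (hSF G hGS).1
    · exact IsIntegral.sum _ fun i _ => IsIntegral.mul isIntegral_algebraMap (heta.mul (hxi.pow _))
  have hcomap : S.comap φ = AddSubgroup.pi Set.univ (fun _ : Fin k => AddSubgroup.zmultiples (q : ℤ)) := by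
    ext c
    rw [AddSubgroup.mem_comap, hmemS, AddSubgroup.mem_pi, hφ]
    constructor
    · intro h1 i _
      rw [Int.mem_zmultiples_iff]
      rw [hG] at h1
      exact key_dvd b m k q hk hk0 hq x hx hdeg c h1 i
    · intro h1
      refine Subalgebra.sum_mem _ fun i _ => ?_
      have h2 := h1 i (Set.mem_univ i)
      rw [Int.mem_zmultiples_iff] at h2
      obtain ⟨d, hd⟩ := h2
      have h3 : (c i : Ω) * (G / (q : Ω) * x ^ (i : ℕ)) = (d : Ω) * (G * x ^ (i : ℕ)) := by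
        rw [hd]
        push_cast
        field_simp
      rw [h3]
      exact Subalgebra.mul_mem _ (intCast_mem _ d) (Subalgebra.mul_mem _ hGS
        (Subalgebra.pow_mem _ (Algebra.self_mem_adjoin_singleton ℤ x) _))
  have h4 : S.relIndex φ.range = q ^ k := by
    rw [← AddSubgroup.index_comap, hcomap, AddSubgroup.index_pi, Finset.prod_const, Finset.card_univ,
      Fintype.card_fin, Int.index_zmultiples, Int.natAbs_natCast]
  have h5 : S.relIndex (φ.range ⊔ S) = q ^ k := by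
    rw [AddSubgroup.relIndex_sup_right, h4]
  have h6 := AddSubgroup.relIndex_mul_relIndex S (φ.range ⊔ S) O le_sup_right (sup_le hφO hSO)
  rw [hidx, ← h6, h5]
  exact dvd_mul_right _ _

end Pool.Agent.H11.V6
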