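import Pool.Agent.H11.V6.Bad
import Pool.Agent.H75.AP.MertensA

/-!
# Module Many (MP_187c26_nt, RadicalLehmer without the tame condition): primes not dividing the index

`bad_sum`: `N ≠ 0` with `q ^ (m / q) ∣ N`, `q ∣ m` for the primes `q ∣ N` in `Q`: `∑_(q ∈ Q, q ∣ N) log q / q ≤ log N / m`.
`many_good`: at least `Z ^ θ` primes in `(Z ^ s, Z ^ (s + 1)]`, `θ < s`, do not divide `N` (Mertens: `∑ log q / q ≥ log Z - 2 C` over the interval).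
-/

set_option autoImplicit false

open Finset

namespace Pool.Agent.H11.V6

theorem bad_sum (m N : ℕ) (ι : ℝ) (hm : 1 ≤ m) (hN : N ≠ 0) (Q : Finset ℕ)
    (hQ : ∀ q ∈ Q, q.Prime ∧ q ∣ m ∧ q ^ (m / q) ∣ N) (hι : Real.log N ≤ ι * m) :
    ∑ q ∈ Q, Real.log q / q ≤ ι := by
  have hmR : (0 : ℝ) < m := by exact_mod_cast hm
  have h1 : ∏ q ∈ Q, q ^ (m / q) ∣ N := by
    refine Finset.prod_dvd_of_isRelPrime ?_ fun q hq => (hQ q hq).2.2
    intro p hp q hq hpq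
    exact Nat.coprime_iff_isRelPrime.1 (Nat.Coprime.pow _ _ ((Nat.coprime_primes (hQ p hp).1 (hQ q hq).1).2 hpq))
  have h2 : ∏ q ∈ Q, q ^ (m / q) ≤ N := Nat.le_of_dvd (Nat.pos_of_ne_zero hN) h1
  have h3 : (0 : ℝ) < ((∏ q ∈ Q, q ^ (m / q) : ℕ) : ℝ) := by
    exact_mod_cast Finset.prod_pos fun q hq => pow_pos (hQ q hq).1.pos _
  have h4 : Real.log ((∏ q ∈ Q, q ^ (m / q) : ℕ) : ℝ) ≤ Real.log N :=
    Real.log_le_log h3 (by exact_mod_cast h2)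
  rw [Nat.cast_prod, Real.log_prod (fun q hq => by
    exact_mod_cast pow_ne_zero _ (hQ q hq).1.ne_zero)] at h4
  have h5 : ∑ q ∈ Q, Real.log ((q ^ (m / q) : ℕ) : ℝ) = m * ∑ q ∈ Q, Real.log q / q := by
    rw [Finset.mul_sum]
    refine Finset.sum_congr rfl fun q hq => ?_
    obtain ⟨h6, h7, -⟩ := hQ q hq
    have hq0 : (q : ℝ) ≠ 0 := by exact_mod_cast h6.ne_zero
    rw [Nat.cast_pow, Real.log_pow, Nat.cast_div h7 hq0]
    ring
  rw [h5] at h4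
  have h8 := h4.trans hι
  rw [mul_comm] at h8
  exact le_of_mul_le_mul_right h8 hmR

theorem mert_int : ∃ C : ℝ, ∀ (s Z : ℕ), 2 ≤ Z →
    Real.log Z - C ≤ ∑ p ∈ (Ioc (Z ^ s) (Z ^ (s + 1))).filter Nat.Prime, Real.log p / p := by
  obtain ⟨C, hC, h⟩ := Pool.Agent.H75.AP.mertens_one
  refine ⟨2 * C, fun s Z hZ => ?_⟩
  have hZ1 : (1 : ℝ) ≤ Z := by exact_mod_cast (by omega : 1 ≤ Z)
  have h1 := h ((Z : ℝ) ^ s) (one_le_pow₀ hZ1)
  have h2 := h ((Z : ℝ) ^ (s + 1)) (one_le_pow₀ hZ1)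
  rw [abs_le] at h1 h2
  rw [Real.log_pow] at h1 h2
  push_cast at h1 h2
  have h3 : Pool.Agent.H75.AP.PI 0 ((Z : ℝ) ^ (s + 1)) ⊆
      Pool.Agent.H75.AP.PI 0 ((Z : ℝ) ^ s) ∪ (Ioc (Z ^ s) (Z ^ (s + 1))).filter Nat.Prime := by
    intro p hp
    rw [Finset.mem_union]
    have e1 : ⌊(Z : ℝ) ^ (s + 1)⌋₊ = Z ^ (s + 1) := by
      rw [← Nat.cast_pow, Nat.floor_natCast]
    have e2 : ⌊(Z : ℝ) ^ s⌋₊ = Z ^ s := by
      rw [← Nat.cast_pow, Nat.floor_natCast]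
    unfold Pool.Agent.H75.AP.PI at hp ⊢
    rw [e1] at hp
    rw [e2]
    simp only [Finset.mem_filter, Finset.mem_range, Finset.mem_Ioc] at hp ⊢
    by_cases h4 : p < Z ^ s + 1
    · exact Or.inl ⟨h4, hp.2⟩
    · exact Or.inr ⟨⟨by omega, by omega⟩, hp.2.1⟩
  have h5 : ∑ p ∈ Pool.Agent.H75.AP.PI 0 ((Z : ℝ) ^ (s + 1)), Real.log p / p ≤
      ∑ p ∈ Pool.Agent.H75.AP.PI 0 ((Z : ℝ) ^ s), Real.log p / p +
      ∑ p ∈ (Ioc (Z ^ s) (Z ^ (s + 1))).filter Nat.Prime, Real.log p / p := by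
    have h6 : ∀ p : ℕ, 0 ≤ Real.log p / p := fun p =>
      div_nonneg (Real.log_natCast_nonneg p) (Nat.cast_nonneg p)
    refine (Finset.sum_le_sum_of_subset_of_nonneg h3 fun p _ _ => h6 p).trans ?_
    have h7 := Finset.sum_union_inter (s₁ := Pool.Agent.H75.AP.PI 0 ((Z : ℝ) ^ s))
      (s₂ := (Ioc (Z ^ s) (Z ^ (s + 1))).filter Nat.Prime) (f := fun p : ℕ => Real.log p / p)
    have h8 : 0 ≤ ∑ p ∈ Pool.Agent.H75.AP.PI 0 ((Z : ℝ) ^ s) ∩ (Ioc (Z ^ s) (Z ^ (s + 1))).filter Nat.Prime,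
        Real.log p / p := Finset.sum_nonneg fun p _ => h6 p
    linarith
  linarith [h1.2, h2.1]

/-- Many primes in `(Z ^ s, Z ^ (s + 1)]` do not divide the index. -/
theorem many_good (ι θ : ℝ) (b s : ℕ) (hb : 1 ≤ b) (hs : 1 ≤ s) (hθ : θ < s) :
    ∃ Z0 : ℕ, ∀ Z : ℕ, Z0 ≤ Z → ∀ m N : ℕ, 1 ≤ m → N ≠ 0 → Real.log N ≤ ι * m →
      (∀ q : ℕ, q.Prime → ¬ q ∣ b → q ∣ N → q ∣ m ∧ q ^ (m / q) ∣ N) →
      (Z : ℝ) ^ θ ≤ #((Ioc (Z ^ s) (Z ^ (s + 1))).filter fun p => p.Prime ∧ ¬ p ∣ N) := by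
  obtain ⟨C, hC⟩ := mert_int
  have hlog : Filter.Tendsto (fun Z : ℕ => Real.log (Z : ℝ)) Filter.atTop Filter.atTop :=
    Real.tendsto_log_atTop.comp tendsto_natCast_atTop_atTop
  have e1 := hlog.eventually_ge_atTop (C + ι + 1)
  have e2 : ∀ᶠ Z : ℕ in Filter.atTop, Real.log (Z : ℝ) ≤ 1 / (s + 1) * (Z : ℝ) ^ ((s : ℝ) - θ) := by
    have h1 := (isLittleO_log_rpow_atTop (by linarith : 0 < (s : ℝ) - θ)).comp_tendsto
      (tendsto_natCast_atTop_atTop (R := ℝ))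
    have h2 := h1.def (c := 1 / ((s : ℝ) + 1)) (by positivity)
    filter_upwards [h2] with Z hZ
    simp only [Function.comp_apply, Real.norm_eq_abs] at hZ
    rw [abs_of_nonneg (Real.rpow_nonneg (Nat.cast_nonneg Z) _)] at hZ
    exact (le_abs_self _).trans hZ
  obtain ⟨Z0, hZ0⟩ := Filter.eventually_atTop.1 ((e1.and e2).and (Filter.eventually_ge_atTop (b + 2)))
  refine ⟨Z0, fun Z hZ m N hm hN hι hbad => ?_⟩
  obtain ⟨⟨h1, h2⟩, h3⟩ := hZ0 Z hZ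
  have hZR : (1 : ℝ) < Z := by exact_mod_cast (by omega : 1 < Z)
  have hZs : b < Z ^ s := by
    calc b < Z := by omega
      _ = Z ^ 1 := (pow_one Z).symm
      _ ≤ Z ^ s := Nat.pow_le_pow_right (by omega) hs
  have h4 := hC s Z (by omega)
  obtain ⟨P, hP⟩ : ∃ P : Finset ℕ, P = (Ioc (Z ^ s) (Z ^ (s + 1))).filter Nat.Prime := ⟨_, rfl⟩
  obtain ⟨Gd, hGd⟩ : ∃ G : Finset ℕ, G = (Ioc (Z ^ s) (Z ^ (s + 1))).filter fun p => p.Prime ∧ ¬ p ∣ N := ⟨_, rfl⟩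
  rw [← hP] at h4
  rw [← hGd]
  have h5 : ∑ q ∈ P.filter (fun q => q ∣ N), Real.log q / q ≤ ι := by
    refine bad_sum m N ι hm hN _ (fun q hq => ?_) hι
    rw [hP, Finset.mem_filter, Finset.mem_filter, Finset.mem_Ioc] at hq
    obtain ⟨⟨⟨h6, h7⟩, h8⟩, h9⟩ := hq
    have h10 : ¬ q ∣ b := fun h => by
      have := Nat.le_of_dvd hb h
      omega
    exact ⟨h8, hbad q h8 h10 h9⟩
  have h6 : P.filter (fun q => ¬ q ∣ N) = Gd := by
    rw [hP, hGd, Finset.filter_filter]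
  have h7 := Finset.sum_filter_add_sum_filter_not P (fun q => q ∣ N) (fun q : ℕ => Real.log q / q)
  rw [h6] at h7
  have h8 : 1 ≤ ∑ q ∈ Gd, Real.log q / q := by linarith
  have h9 : ∀ q ∈ Gd, Real.log q / q ≤ (s + 1) * Real.log Z / (Z : ℝ) ^ s := by
    intro q hq
    rw [hGd, Finset.mem_filter, Finset.mem_Ioc] at hq
    obtain ⟨⟨h10, h11⟩, h12, -⟩ := hq
    have hq0 : (0 : ℝ) < q := by exact_mod_cast h12.pos
    have h13 : Real.log q ≤ (s + 1) * Real.log Z := by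
      have h14 : Real.log q ≤ Real.log ((Z : ℝ) ^ (s + 1)) :=
        Real.log_le_log hq0 (by exact_mod_cast h11)
      rw [Real.log_pow] at h14
      push_cast at h14
      exact h14
    have h15 : (Z : ℝ) ^ s ≤ q := by exact_mod_cast h10.le
    exact div_le_div₀ (mul_nonneg (by positivity) (Real.log_nonneg hZR.le)) h13 (by positivity) h15
  have h10 : 1 ≤ #Gd * ((s + 1) * Real.log Z / (Z : ℝ) ^ s) := by
    refine h8.trans ((Finset.sum_le_sum h9).trans (le_of_eq ?_))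
    rw [Finset.sum_const, nsmul_eq_mul]
  have hZs0 : (0 : ℝ) < (Z : ℝ) ^ s := by positivity
  have h11 : (Z : ℝ) ^ s ≤ #Gd * ((s + 1) * Real.log Z) := by
    rw [mul_div_assoc', le_div_iff₀ hZs0, one_mul] at h10
    exact h10
  have h12 : (#Gd : ℝ) * ((s + 1) * Real.log Z) ≤ #Gd * (Z : ℝ) ^ ((s : ℝ) - θ) := by
    refine mul_le_mul_of_nonneg_left ?_ (Nat.cast_nonneg _)
    have hs1 : (0 : ℝ) < (s : ℝ) + 1 := by positivity
    rw [one_div, inv_mul_eq_div, le_div_iff₀ hs1] at h2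
    linarith
  have h13 := h11.trans h12
  have hZpos : (0 : ℝ) < Z := by linarith
  have h14 : (Z : ℝ) ^ s = (Z : ℝ) ^ θ * (Z : ℝ) ^ ((s : ℝ) - θ) := by
    rw [← Real.rpow_add hZpos, ← Real.rpow_natCast]
    congr 1
    ring
  rw [h14] at h13
  exact le_of_mul_le_mul_right h13 (Real.rpow_pos_of_pos hZpos _)

end Pool.Agent.H11.V6
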